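import Pool.Agent.K1H73.QrtCF
import Pool.Agent.K1H73.QrtEnc
import Pool.Agent.K1H73.QrtDexp

/-!
The least principal rational cone containing the quasi-rational languages is not the family of all
context-free languages: there is a context-free language `L` such that every quasi-rational
language is the image of `L` by a rational transduction, while the language of binary trees (a
context-free language) is not.

The language `L` is the union of a set of nested words (ternary trees whose vertices carry a unary
label and a unary tag) and of the set of the words in which two neighbouring tags violate the rule that
the tag of the first and of the third child is less than half of the tag of the parent, and the tag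
of the middle child is not larger than the tag of the parent. A finite automaton with `n` states
which accepts a word of `L` accepts a word of `L` of length `n ^ O(log n)`, so that `L` is not a
generator; and trees of bounded tag encode the languages of a bounded level of the hierarchy of
quasi-rational languages.
-/

namespace Pool.Agent.Results.MP_2d18ab_lc.NonGenerator

open Pool.Agent.K1H73.Qrt

theorem result : ∃ (X : Type) (_ : Fintype X) (L : Language X), L.IsContextFree ∧
    (∀ (α : Type) [Finite α] (P : Language α), QuasiRational α P → InCone L P) ∧
    ∃ D : Language (Fin 3), D.IsContextFree ∧ ¬ InCone L D :=
  ⟨Sg, inferInstance, LL, LL_contextFree, fun _ _ _ h => inCone_of_quasiRational h,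
    DD, DD_contextFree, not_inCone⟩

end Pool.Agent.Results.MP_2d18ab_lc.NonGenerator
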